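import Pool.Agent.TH497.TW.Std
import Pool.Agent.Q165.SG.Rep

/-!
# Tree decompositions with a condition on the bags
-/

set_option autoImplicit false
set_option linter.unusedSectionVars false

namespace Pool.Agent.Q165.TI

open Finset Pool.Agent.TH676.Z Pool.Agent.Y335.FL Pool.Agent.Q165.SG Pool.Agent.TH497.TW

/-- a tree decomposition such that all bags have the property `P` -/
def TDP {V E : Type} (src dst : E → V) (P : Finset V → Prop) : Prop :=
  ∃ (n : ℕ) (par : ℕ → ℕ) (B : ℕ → Finset V), (∀ i, 0 < i → i < n → par i < i) ∧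
    (∀ e, ∃ i, i < n ∧ src e ∈ B i ∧ dst e ∈ B i) ∧
    (∀ i j v, j < i → i < n → v ∈ B i → v ∈ B j → v ∈ B (par i)) ∧
    ∀ i, i < n → P (B i)

section

variable {V E : Type} [Fintype V] [DecidableEq V] [Fintype E] [DecidableEq E]

/-- contraction of an edge -/
theorem TDP.contract {src dst : E → V} {P P' : Finset V → Prop} (e : E) (h : TDP src dst P)
    (hne : src e ≠ dst e) (hP : ∀ X, P X → P' (X.image (ctr (src e) (dst e)))) :
    TDP (ctr (src e) (dst e) ∘ src) (ctr (src e) (dst e) ∘ dst) P' := by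
  obtain ⟨n, par, B, h0, h1, h2, h4⟩ := h
  refine ⟨n, par, fun i => (B i).image (ctr (src e) (dst e)), h0, ?_, ?_,
    fun i hi => hP _ (h4 i hi)⟩
  · intro d
    obtain ⟨i, hin, hi1, hi2⟩ := h1 d
    exact ⟨i, hin, mem_image_of_mem _ hi1, mem_image_of_mem _ hi2⟩
  · have hm : ∀ i v, v ∈ (B i).image (ctr (src e) (dst e)) ↔
        (v ∈ B i ∧ v ≠ dst e) ∨ (v = src e ∧ dst e ∈ B i) := by
      intro i v
      rw [mem_image]
      unfold ctr
      constructor
      · rintro ⟨y, hy, hyv⟩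
        by_cases h : y = dst e
        · rw [if_pos h] at hyv
          exact Or.inr ⟨hyv.symm, h ▸ hy⟩
        · rw [if_neg h] at hyv
          exact Or.inl ⟨hyv ▸ hy, hyv ▸ h⟩
      · rintro (⟨h5, h6⟩ | ⟨h5, h6⟩)
        · exact ⟨v, h5, if_neg h6⟩
        · exact ⟨dst e, h6, by rw [if_pos rfl, h5]⟩
    intro i j v hji hi hvi hvj
    change v ∈ (B i).image (ctr (src e) (dst e)) at hvi
    change v ∈ (B j).image (ctr (src e) (dst e)) at hvj
    change v ∈ (B (par i)).image (ctr (src e) (dst e))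
    rw [hm] at hvi hvj ⊢
    obtain ⟨b, hbn, hb1, hb2⟩ := h1 e
    rcases hvi with ⟨h5, h6⟩ | ⟨h5, h6⟩ <;> rcases hvj with ⟨h7, h8⟩ | ⟨h7, h8⟩
    · exact Or.inl ⟨h2 i j v hji hi h5 h7, h6⟩
    · rw [h7] at h5
      rcases two_conn h0 h2 ⟨b, hbn, hb1, hb2⟩ hji hi h5 h8 with h | h
      · rw [h7]; exact Or.inl ⟨h, hne⟩
      · exact Or.inr ⟨h7, h⟩
    · rw [h5] at h7
      rcases two_conn h0 h2 ⟨b, hbn, hb2, hb1⟩ hji hi h6 h7 with h | h
      · exact Or.inr ⟨h5, h⟩
      · rw [h5]; exact Or.inl ⟨h, hne⟩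
    · exact Or.inr ⟨h5, h2 i j _ hji hi h6 h8⟩

/-- from the usual definition -/
theorem TDP.of_tree {ι : Type} [Fintype ι] {T : SimpleGraph ι} {C : ι → Finset V}
    {src dst : E → V} {P : Finset V → Prop} (hT : T.IsTree) (hC : PathCond T C)
    (he : ∀ e, ∃ i, src e ∈ C i ∧ dst e ∈ C i) (hw : ∀ i, P (C i)) :
    TDP src dst P := by
  classical
  obtain ⟨m, hm⟩ : ∃ m, Fintype.card ι = m + 1 := by
    have := hT.connected.nonempty
    exact ⟨Fintype.card ι - 1, by have := Fintype.card_pos (α := ι); omega⟩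
  obtain ⟨num, par, h1, h2, h3, h4⟩ := numbering m ι T C hT hC hm
  have hsurj : ∀ a, a < m + 1 → ∃ i, num i = a := by
    intro a ha
    have hb : Function.Bijective (fun i => (⟨num i, h2 i⟩ : Fin (m + 1))) := by
      rw [Fintype.bijective_iff_injective_and_card]
      refine ⟨fun i j hij => h1 (by simpa using hij), by rw [hm, Fintype.card_fin]⟩
    obtain ⟨i, hi⟩ := hb.2 ⟨a, ha⟩
    exact ⟨i, by simpa using congrArg Fin.val hi⟩
  have := hT.connected.nonempty
  have hinv : ∀ i, Function.invFun num (num i) = i := Function.leftInverse_invFun h1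
  refine ⟨m + 1, par, fun a => C (Function.invFun num a), h3, ?_, ?_, fun a _ => hw _⟩
  · intro e
    obtain ⟨i, hi1, hi2⟩ := he e
    refine ⟨num i, h2 i, ?_⟩
    change src e ∈ C (Function.invFun num (num i)) ∧ dst e ∈ C (Function.invFun num (num i))
    rw [hinv i]
    exact ⟨hi1, hi2⟩
  · intro a b v hba ha hva hvb
    obtain ⟨i, rfl⟩ := hsurj a ha
    obtain ⟨j, rfl⟩ := hsurj b (by omega)
    change v ∈ C (Function.invFun num (num i)) at hva
    change v ∈ C (Function.invFun num (num j)) at hvb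
    change v ∈ C (Function.invFun num (par (num i)))
    rw [hinv] at hva hvb
    obtain ⟨k, hk, hk2⟩ := h4 i j v hba hva hvb
    rw [← hk, hinv]
    exact hk2

theorem TDP.mono {src dst : E → V} {P P' : Finset V → Prop} (h : TDP src dst P)
    (hP : ∀ X, P X → P' X) : TDP src dst P' := by
  obtain ⟨n, par, B, h0, h1, h2, h4⟩ := h
  exact ⟨n, par, B, h0, h1, h2, fun i hi => hP _ (h4 i hi)⟩

theorem TDP.hasTD {src dst : E → V} {w : ℕ} (h : TDP src dst (fun X => X.card ≤ w)) :
    HasTD w src dst := h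

end

/-- the node `a` is `i` or a descendant of `i` -/
inductive Desc (par : ℕ → ℕ) (i : ℕ) : ℕ → Prop
  | refl : Desc par i i
  | step (a : ℕ) : 0 < a → Desc par i (par a) → Desc par i a

theorem desc_ge {par : ℕ → ℕ} {n i a : ℕ} (h0 : ∀ i, 0 < i → i < n → par i < i)
    (h : Desc par i a) (ha : a < n) : i ≤ a := by
  induction h with
  | refl => exact le_rfl
  | step a ha0 _ ih =>
    have := h0 a ha0 ha
    have := ih (by omega)
    omega

/-- a vertex in bags on both sides of a node is in the bag of the parent of the node -/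
theorem side {V : Type} {n : ℕ} {par : ℕ → ℕ} {B : ℕ → Finset V}
    (h0 : ∀ i, 0 < i → i < n → par i < i)
    (h2 : ∀ i j v, j < i → i < n → v ∈ B i → v ∈ B j → v ∈ B (par i)) {i : ℕ}
    {v : V} {a b : ℕ} (ha : a < n) (hb : b < n) (hda : Desc par i a)
    (hdb : ¬ Desc par i b) (hva : v ∈ B a) (hvb : v ∈ B b) : v ∈ B (par i) := by
  -- the smallest bag of `v`
  classical
  have hex : ∃ m, m < n ∧ v ∈ B m := ⟨a, ha, hva⟩
  set m := Nat.find hex with hm
  obtain ⟨hmn, hvm⟩ := Nat.find_spec hex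
  have hmin : ∀ c, c < n → v ∈ B c → m ≤ c := fun c hc hvc => Nat.find_min' hex ⟨hc, hvc⟩
  -- bags of `v` outside of the descendants: `m` is not a descendant
  have hnm : ¬ Desc par i m := by
    have key : ∀ c, c < n → v ∈ B c → Desc par i m → Desc par i c := by
      intro c
      induction c using Nat.strong_induction_on with
      | _ c ih =>
        intro hc hvc hdm
        rcases Nat.eq_or_lt_of_le (hmin c hc hvc) with h | h
        · exact h ▸ hdm
        · have h3 : par c < c := h0 c (by omega) hc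
          exact Desc.step c (by omega) (ih (par c) h3 (by omega) (h2 c m v h hc hvc hvm) hdm)
    exact fun h => hdb (key b hb hvb h)
  have key : ∀ c, c < n → v ∈ B c → Desc par i c → v ∈ B (par i) := by
    intro c
    induction c using Nat.strong_induction_on with
    | _ c ih =>
      intro hc hvc hdc
      have h : m < c := by
        rcases Nat.eq_or_lt_of_le (hmin c hc hvc) with h | h
        · exact absurd (h ▸ hdc) hnm
        · exact h
      have h3 : par c < c := h0 c (by omega) hc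
      have h4 := h2 c m v h hc hvc hvm
      cases hdc with
      | refl => exact h4
      | step _ _ hd => exact ih (par c) h3 (by omega) h4 hd
  exact key a ha hva hda

/-- the tree decomposition of an intersection graph of connected sets, with further vertices in
`S` -/
theorem TDP.region {V E W F : Type} [Fintype V] [DecidableEq V] [Fintype E] [DecidableEq E]
    [Fintype W] [DecidableEq W] [Fintype F] [DecidableEq F] {src dst : E → V} {s t : F → W}
    {R : V → Finset W} (S : Finset V) {n : ℕ} {par : ℕ → ℕ} {C : ℕ → Finset W} (hn : 0 < n)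
    (h0 : ∀ i, 0 < i → i < n → par i < i)
    (h1 : ∀ f, ∃ i, i < n ∧ s f ∈ C i ∧ t f ∈ C i) (h1' : ∀ p, ∃ i, i < n ∧ p ∈ C i)
    (h2 : ∀ i j v, j < i → i < n → v ∈ C i → v ∈ C j → v ∈ C (par i)) {P : Finset V → Prop}
    (hne : ∀ u, u ∉ S → (R u).Nonempty) (hcn : ∀ u, u ∉ S → Cn s t univ (R u))
    (hadj : ∀ u v, u ∉ S → v ∉ S → u ≠ v → Adj src dst u v → ∃ p, p ∈ R u ∧ p ∈ R v)
    (hP : ∀ i, i < n → P (univ.filter (fun u => u ∈ S ∨ ∃ p ∈ C i, p ∈ R u))) :
    TDP src dst P := by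
  classical
  refine ⟨n, par, fun i => univ.filter (fun u => u ∈ S ∨ ∃ p ∈ C i, p ∈ R u), h0, ?_, ?_, hP⟩
  · intro e
    by_cases hs : src e ∈ S <;> by_cases hd : dst e ∈ S
    · exact ⟨0, hn, mem_filter.2 ⟨mem_univ _, Or.inl hs⟩, mem_filter.2 ⟨mem_univ _, Or.inl hd⟩⟩
    · obtain ⟨p, hp⟩ := hne (dst e) hd
      obtain ⟨i, hi, hpi⟩ := h1' p
      exact ⟨i, hi, mem_filter.2 ⟨mem_univ _, Or.inl hs⟩,
        mem_filter.2 ⟨mem_univ _, Or.inr ⟨p, hpi, hp⟩⟩⟩
    · obtain ⟨p, hp⟩ := hne (src e) hs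
      obtain ⟨i, hi, hpi⟩ := h1' p
      exact ⟨i, hi, mem_filter.2 ⟨mem_univ _, Or.inr ⟨p, hpi, hp⟩⟩,
        mem_filter.2 ⟨mem_univ _, Or.inl hd⟩⟩
    · have hp : ∃ p, p ∈ R (src e) ∧ p ∈ R (dst e) := by
        by_cases he : src e = dst e
        · obtain ⟨p, hp⟩ := hne (src e) hs
          exact ⟨p, hp, he ▸ hp⟩
        · exact hadj _ _ hs hd he ⟨he, e, Or.inl ⟨rfl, rfl⟩⟩
      obtain ⟨p, hp1, hp2⟩ := hp
      obtain ⟨i, hi, hpi⟩ := h1' p
      exact ⟨i, hi, mem_filter.2 ⟨mem_univ _, Or.inr ⟨p, hpi, hp1⟩⟩,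
        mem_filter.2 ⟨mem_univ _, Or.inr ⟨p, hpi, hp2⟩⟩⟩
  · intro i j u hji hi hui huj
    rw [mem_filter] at hui huj ⊢
    refine ⟨mem_univ _, ?_⟩
    by_cases huS : u ∈ S
    · exact Or.inl huS
    right
    obtain ⟨p, hpi, hpu⟩ := hui.2.resolve_left huS
    obtain ⟨q, hqj, hqu⟩ := huj.2.resolve_left huS
    by_contra hcon
    push Not at hcon
    have hcon' : ∀ x ∈ R u, x ∉ C (par i) := fun x hx hxC => hcon x hxC hx
    have hY := hcn u huS ((R u).filter (fun x => ∃ a, a < n ∧ Desc par i a ∧ x ∈ C a))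
      (filter_subset _ _) ⟨p, mem_filter.2 ⟨hpu, i, hi, Desc.refl, hpi⟩⟩ (by
      intro f _ hs ht
      rw [mem_filter, mem_filter]
      obtain ⟨c, hc, hsc, htc⟩ := h1 f
      constructor
      · rintro ⟨_, a, ha, hda, hsa⟩
        refine ⟨ht, c, hc, ?_, htc⟩
        by_contra hdc
        exact hcon' _ hs (side h0 h2 ha hc hda hdc hsa hsc)
      · rintro ⟨_, a, ha, hda, hta⟩
        refine ⟨hs, c, hc, ?_, hsc⟩
        by_contra hdc
        exact hcon' _ ht (side h0 h2 ha hc hda hdc hta htc))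
    rw [← hY, mem_filter] at hqu
    obtain ⟨hqu', a, ha, hda, hqa⟩ := hqu
    have hdj : ¬ Desc par i j := fun h => by
      have := desc_ge h0 h (by omega)
      omega
    exact hcon' q hqu' (side h0 h2 ha (by omega) hda hdj hqa hqj)

/-- the numbering of the nodes of a tree decomposition -/
theorem num_tree {W F ι : Type} [Fintype ι] {T : SimpleGraph ι} {C : ι → Finset W}
    {s t : F → W} (hT : T.IsTree) (hC : PathCond T C)
    (he : ∀ f, ∃ i, s f ∈ C i ∧ t f ∈ C i) (hv : ∀ p, ∃ i, p ∈ C i) :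
    ∃ (n : ℕ) (par : ℕ → ℕ) (B : ℕ → Finset W), 0 < n ∧ (∀ i, 0 < i → i < n → par i < i) ∧
      (∀ f, ∃ i, i < n ∧ s f ∈ B i ∧ t f ∈ B i) ∧ (∀ p, ∃ i, i < n ∧ p ∈ B i) ∧
      (∀ i j v, j < i → i < n → v ∈ B i → v ∈ B j → v ∈ B (par i)) ∧
      ∀ i, i < n → ∃ j, B i = C j := by
  classical
  obtain ⟨m, hm⟩ : ∃ m, Fintype.card ι = m + 1 := by
    have := hT.connected.nonempty
    exact ⟨Fintype.card ι - 1, by have := Fintype.card_pos (α := ι); omega⟩
  obtain ⟨num, par, h1, h2, h3, h4⟩ := numbering m ι T C hT hC hm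
  have hsurj : ∀ a, a < m + 1 → ∃ i, num i = a := by
    intro a ha
    have hb : Function.Bijective (fun i => (⟨num i, h2 i⟩ : Fin (m + 1))) := by
      rw [Fintype.bijective_iff_injective_and_card]
      refine ⟨fun i j hij => h1 (by simpa using hij), by rw [hm, Fintype.card_fin]⟩
    obtain ⟨i, hi⟩ := hb.2 ⟨a, ha⟩
    exact ⟨i, by simpa using congrArg Fin.val hi⟩
  have := hT.connected.nonempty
  have hinv : ∀ i, Function.invFun num (num i) = i := Function.leftInverse_invFun h1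
  refine ⟨m + 1, par, fun a => C (Function.invFun num a), by omega, h3, ?_, ?_, ?_,
    fun a _ => ⟨_, rfl⟩⟩
  · intro e
    obtain ⟨i, hi1, hi2⟩ := he e
    refine ⟨num i, h2 i, ?_⟩
    change s e ∈ C (Function.invFun num (num i)) ∧ t e ∈ C (Function.invFun num (num i))
    rw [hinv i]
    exact ⟨hi1, hi2⟩
  · intro p
    obtain ⟨i, hi⟩ := hv p
    refine ⟨num i, h2 i, ?_⟩
    change p ∈ C (Function.invFun num (num i))
    rw [hinv i]
    exact hi
  · intro a b v hba ha hva hvb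
    obtain ⟨i, rfl⟩ := hsurj a ha
    obtain ⟨j, rfl⟩ := hsurj b (by omega)
    change v ∈ C (Function.invFun num (num i)) at hva
    change v ∈ C (Function.invFun num (num j)) at hvb
    change v ∈ C (Function.invFun num (par (num i)))
    rw [hinv] at hva hvb
    obtain ⟨k, hk, hk2⟩ := h4 i j v hba hva hvb
    rw [← hk, hinv]
    exact hk2

end Pool.Agent.Q165.TI
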