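import Pool.Agent.Y335.FL.Stm

/-!
# Independent sets in graphs of girth at least twelve
-/

set_option autoImplicit false
set_option linter.unusedSectionVars false

namespace Pool.Agent.Q165.TI

open Finset Pool.Agent.Y335.FL

section

variable {V : Type} [DecidableEq V] {Ad : V → V → Prop}

/-- a walk with `n` steps without backtracking -/
structure NB (Ad : V → V → Prop) (n : ℕ) (w : ℕ → V) : Prop where
  adj : ∀ i, i < n → Ad (w i) (w (i + 1))
  nb : ∀ i, i + 1 < n → w i ≠ w (i + 2)

theorem NB.shift {n : ℕ} {w : ℕ → V} (h : NB Ad n w) (k m : ℕ) (hk : k + m ≤ n) :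
    NB Ad m (fun i => w (k + i)) :=
  ⟨fun i hi => h.adj (k + i) (by omega), fun i hi => h.nb (k + i) (by omega)⟩

/-- a closed walk without backtracking has at least twelve steps -/
theorem NB.ne (hi : ∀ a, ¬ Ad a a) (hg : Girth Ad 12) : ∀ (d : ℕ), 0 < d → d ≤ 11 →
    ∀ (w : ℕ → V), NB Ad d w → w 0 ≠ w d := by
  intro d
  induction d using Nat.strong_induction_on with
  | _ d ih =>
    intro hd0 hd w hw h0
    have hinj : ∀ i j, i < j → j ≤ d → (i ≠ 0 ∨ j ≠ d) → w i ≠ w j := by
      intro i j hij hj hne
      have := ih (j - i) (by omega) (by omega) (by omega) (fun a => w (i + a))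
        (hw.shift i (j - i) (by omega))
      simp only [Nat.add_zero] at this
      rwa [Nat.add_sub_cancel' hij.le] at this
    rcases Nat.lt_or_ge d 3 with h3 | h3
    · interval_cases d
      · have := hw.adj 0 (by norm_num)
        rw [← h0] at this
        exact hi _ this
      · exact hw.nb 0 (by norm_num) h0
    · obtain ⟨k, rfl⟩ : ∃ k, d = k + 3 := ⟨d - 3, by omega⟩
      refine hg k (by omega) (fun a => w a.val) ?_ ?_
      · intro a b hab
        rcases lt_trichotomy a.val b.val with h | h | h
        · exact absurd hab (hinj _ _ h (by omega) (Or.inr (by omega)))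
        · exact Fin.ext h
        · exact absurd hab.symm (hinj _ _ h (by omega) (Or.inr (by omega)))
      · intro a
        have h1 := hw.adj a.val (by omega)
        have h2 : w ((a + 1 : Fin (k + 3)).val) = w (a.val + 1) := by
          rw [Fin.val_add_one]
          split_ifs with h4
          · rw [h4]
            simp only [Fin.val_last]
            exact h0
          · rfl
        change Ad (w a.val) (w ((a + 1 : Fin (k + 3)).val))
        rw [h2]
        exact h1

/-- the vertices of a walk with at most eleven steps are different -/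
theorem NB.inj (hi : ∀ a, ¬ Ad a a) (hg : Girth Ad 12) {n : ℕ} {w : ℕ → V} (h : NB Ad n w)
    {i j : ℕ} (hij : i < j) (hj : j ≤ n) (hd : j ≤ i + 11) : w i ≠ w j := by
  have := NB.ne hi hg (j - i) (by omega) (by omega) (fun a => w (i + a))
    (h.shift i (j - i) (by omega))
  simp only [Nat.add_zero] at this
  rwa [Nat.add_sub_cancel' hij.le] at this

/-- a walk with at most ten steps is induced -/
theorem NB.ind (hs : ∀ a b, Ad a b → Ad b a) (hi : ∀ a, ¬ Ad a a) (hg : Girth Ad 12) {n : ℕ}
    {w : ℕ → V} (h : NB Ad n w) {i j : ℕ} (hij : i + 2 ≤ j) (hj : j ≤ n) (hd : j ≤ i + 10) :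
    ¬ Ad (w i) (w j) := by
  intro hadj
  obtain ⟨k, hk⟩ : ∃ k, j = i + (k + 2) := ⟨j - i - 2, by omega⟩
  subst hk
  refine hg k (by omega) (fun a => w (i + a.val)) ?_ ?_
  · intro a b hab
    rcases lt_trichotomy a.val b.val with h1 | h1 | h1
    · exact absurd hab (h.inj hi hg (by omega) (by omega) (by omega))
    · exact Fin.ext h1
    · exact absurd hab.symm (h.inj hi hg (by omega) (by omega) (by omega))
  · intro a
    change Ad (w (i + a.val)) (w (i + (a + 1 : Fin (k + 3)).val))
    rw [Fin.val_add_one]
    split_ifs with h4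
    · rw [h4]
      simp only [Fin.val_last, Nat.add_zero]
      exact hs _ _ hadj
    · have hlt : a.val < k + 2 := by
        rcases Nat.lt_or_ge a.val (k + 2) with h5 | h5
        · exact h5
        · exact absurd (Fin.ext (by simp only [Fin.val_last]; omega)) h4
      exact h.adj (i + a.val) (by omega)

/-- there is a walk in `U` from `x` through its neighbour `a` -/
theorem exists_walk {U : Finset V}
    (h2 : ∀ v ∈ U, ∀ a, ∃ b ∈ U, Ad v b ∧ b ≠ a) {x a : V} (hx : x ∈ U) (ha : a ∈ U)
    (hxa : Ad x a) : ∃ w : ℕ → V, (∀ n, NB Ad n w) ∧ (∀ i, w i ∈ U) ∧ w 0 = x ∧ w 1 = a := by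
  classical
  have h2' : ∀ v a, ∃ b, v ∈ U → b ∈ U ∧ Ad v b ∧ b ≠ a := by
    intro v a
    by_cases hv : v ∈ U
    · obtain ⟨b, h3, h4, h5⟩ := h2 v hv a
      exact ⟨b, fun _ => ⟨h3, h4, h5⟩⟩
    · exact ⟨v, fun h => absurd h hv⟩
  choose nx hnx using h2'
  set st : ℕ → V × V := fun i => (fun p : V × V => (p.2, nx p.2 p.1))^[i] (x, a) with hst
  have hs : ∀ i, st (i + 1) = ((st i).2, nx (st i).2 (st i).1) := by
    intro i
    rw [hst]
    simp only [Function.iterate_succ_apply']
  have hinv : ∀ i, (st i).1 ∈ U ∧ (st i).2 ∈ U ∧ Ad (st i).1 (st i).2 := by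
    intro i
    induction i with
    | zero => exact ⟨hx, ha, hxa⟩
    | succ i ih =>
      rw [hs]
      obtain ⟨b1, b2, _⟩ := hnx (st i).2 (st i).1 ih.2.1
      exact ⟨ih.2.1, b1, b2⟩
  have h1 : ∀ i, (st (i + 1)).1 = (st i).2 := fun i => by rw [hs]
  refine ⟨fun i => (st i).1, fun n => ⟨fun i _ => ?_, fun i _ => ?_⟩, fun i => (hinv i).1, rfl,
    ?_⟩
  · rw [h1]
    exact (hinv i).2.2
  · change (st i).1 ≠ (st (i + 1 + 1)).1
    rw [h1, hs]
    exact fun h => (hnx (st i).2 (st i).1 (hinv i).2.1).2.2 h.symm
  · exact h1 0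

/-- pairwise not adjacent -/
def Ind (Ad : V → V → Prop) (I : Finset V) : Prop := ∀ x ∈ I, ∀ y ∈ I, ¬ Ad x y

theorem Ind.insert (hs : ∀ a b, Ad a b → Ad b a) (hi : ∀ a, ¬ Ad a a) {I : Finset V} {v : V}
    (hI : Ind Ad I) (hv : ∀ x ∈ I, ¬ Ad v x) : Ind Ad (insert v I) := by
  intro x hx y hy hxy
  rcases mem_insert.1 hx with h1 | h1 <;> rcases mem_insert.1 hy with h2 | h2
  · rw [h1, h2] at hxy
    exact hi _ hxy
  · rw [h1] at hxy
    exact hv y h2 hxy
  · rw [h2] at hxy
    exact hv x h1 (hs _ _ hxy)
  · exact hI x h1 y h2 hxy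

open Classical in
/-- removing a vertex with at most one neighbour -/
theorem leaf (hs : ∀ a b, Ad a b → Ad b a) (hi : ∀ a, ¬ Ad a a) {U : Finset V} {v : V}
    (hv : v ∈ U) (h1 : (U.filter (Ad v)).card ≤ 1) :
    ∃ U' ⊆ U, U.card ≤ U'.card + 2 ∧ U'.card < U.card ∧
      ∀ I ⊆ U', Ind Ad I → insert v I ⊆ U ∧ Ind Ad (insert v I) ∧ (insert v I).card = I.card + 1 := by
  refine ⟨(U.erase v).filter (fun x => ¬ Ad v x), (filter_subset _ _).trans (erase_subset _ _),
    ?_, ?_, ?_⟩
  · have h2 := card_erase_of_mem hv
    have h3 := card_filter_add_card_filter_not (s := U.erase v) (p := fun x => Ad v x)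
    have h4 : ((U.erase v).filter (fun x => Ad v x)).card ≤ (U.filter (Ad v)).card :=
      card_le_card (filter_subset_filter _ (erase_subset _ _))
    have h5 : 0 < U.card := card_pos.2 ⟨v, hv⟩
    omega
  · refine (card_filter_le _ _).trans_lt ?_
    exact card_erase_lt_of_mem hv
  · intro I hI hind
    have hvI : v ∉ I := fun h => by
      have := hI h
      rw [mem_filter, mem_erase] at this
      exact this.1.1 rfl
    refine ⟨?_, hind.insert hs hi ?_, card_insert_of_notMem hvI⟩
    · intro x hx
      rcases mem_insert.1 hx with rfl | hx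
      · exact hv
      · exact mem_of_mem_erase (mem_filter.1 (hI hx)).1
    · intro x hx
      exact (mem_filter.1 (hI hx)).2

open Classical in
theorem two_of {U : Finset V} (h : ∀ v ∈ U, ¬ (U.filter (Ad v)).card ≤ 1) :
    ∀ v ∈ U, ∀ a, ∃ b ∈ U, Ad v b ∧ b ≠ a := by
  intro v hv a
  have h1 : 1 < (U.filter (Ad v)).card := by
    have := h v hv
    omega
  obtain ⟨b, hb, hba⟩ := exists_mem_ne h1 a
  rw [mem_filter] at hb
  exact ⟨b, hb.1, hb.2, hba⟩

/-- at most eleven vertices: half of them -/
theorem small (hs : ∀ a b, Ad a b → Ad b a) (hi : ∀ a, ¬ Ad a a) (hg : Girth Ad 12) :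
    ∀ (n : ℕ), n ≤ 11 → ∀ U : Finset V, U.card = n → ∃ I ⊆ U, Ind Ad I ∧ n ≤ 2 * I.card := by
  classical
  intro n
  induction n using Nat.strong_induction_on with
  | _ n ih =>
    intro hn U hU
    rcases U.eq_empty_or_nonempty with hE | ⟨x, hx⟩
    · refine ⟨∅, empty_subset _, fun x hx => absurd hx (notMem_empty _), ?_⟩
      rw [hE, card_empty] at hU
      omega
    by_cases hl : ∃ v ∈ U, (U.filter (Ad v)).card ≤ 1
    · obtain ⟨v, hv, h1⟩ := hl
      obtain ⟨U', hsub, hc1, hc2, hI⟩ := leaf hs hi hv h1
      obtain ⟨I, hI1, hI2, hI3⟩ := ih U'.card (by omega) (by omega) U' rfl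
      obtain ⟨h3, h4, h5⟩ := hI I hI1 hI2
      exact ⟨_, h3, h4, by omega⟩
    · push Not at hl
      have h2 := two_of (U := U) (Ad := Ad) (fun v hv => by have := hl v hv; omega)
      obtain ⟨a, ha, hxa, _⟩ := h2 x hx x
      obtain ⟨w, hw, hwU, _, _⟩ := exists_walk h2 hx ha hxa
      exfalso
      have h12 : ((range 12).image w).card = 12 := by
        rw [card_image_of_injOn, card_range]
        intro i hi' j hj hij
        simp only [coe_range, Set.mem_Iio] at hi' hj
        rcases lt_trichotomy i j with h | h | h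
        · exact absurd hij ((hw 12).inj hi hg h (by omega) (by omega))
        · exact h
        · exact absurd hij.symm ((hw 12).inj hi hg h (by omega) (by omega))
      have hsub : (range 12).image w ⊆ U := by
        intro y hy
        obtain ⟨i, _, rfl⟩ := mem_image.1 hy
        exact hwU i
      have := card_le_card hsub
      omega

/-- three legs at a vertex with three neighbours -/
theorem legs (hs : ∀ a b, Ad a b → Ad b a) (hi : ∀ a, ¬ Ad a a) (hg : Girth Ad 12)
    {U : Finset V} (h2 : ∀ v ∈ U, ∀ a, ∃ b ∈ U, Ad v b ∧ b ≠ a) {x : V} (hx : x ∈ U)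
    (nb : Fin 3 → V) (hnb : Function.Injective nb) (hU : ∀ i, nb i ∈ U) (hA : ∀ i, Ad x (nb i)) :
    ∃ I ⊆ U, Ind Ad I ∧ I.card = 9 := by
  classical
  have hw := fun i => exists_walk h2 hx (hU i) (hA i)
  choose w hw hwU hw0 hw1 using hw
  -- the walk along two legs
  have hz : ∀ i j, i ≠ j → NB Ad 10 (fun a => if a ≤ 5 then w i (5 - a) else w j (a - 5)) := by
    intro i j hij
    constructor
    · intro a ha
      by_cases h : a + 1 ≤ 5
      · simp only [if_pos (show a ≤ 5 by omega), if_pos h]
        have := (hw i 10).adj (5 - (a + 1)) (by omega)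
        rw [show 5 - (a + 1) + 1 = 5 - a by omega] at this
        exact hs _ _ this
      · by_cases h' : a ≤ 5
        · obtain rfl : a = 5 := by omega
          simp only [if_pos h', if_neg h]
          rw [show 5 - 5 = 0 from rfl, show 5 + 1 - 5 = 1 from rfl, hw0, hw1]
          exact hA j
        · simp only [if_neg h', if_neg h]
          have := (hw j 10).adj (a - 5) (by omega)
          rwa [show a - 5 + 1 = a + 1 - 5 by omega] at this
    · intro a ha
      by_cases h : a + 2 ≤ 5
      · simp only [if_pos (show a ≤ 5 by omega), if_pos h]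
        have := (hw i 10).nb (5 - (a + 2)) (by omega)
        rw [show 5 - (a + 2) + 2 = 5 - a by omega] at this
        exact this.symm
      · by_cases h' : a ≤ 5
        · simp only [if_pos h', if_neg h]
          rcases Nat.eq_or_lt_of_le h' with h5 | h5
          · subst h5
            rw [show 5 - 5 = 0 from rfl, show 5 + 2 - 5 = 2 from rfl, hw0]
            have := (hw j 10).nb 0 (by omega)
            rwa [hw0] at this
          · obtain rfl : a = 4 := by omega
            change w i 1 ≠ w j 1
            rw [hw1, hw1]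
            exact fun h => hij (hnb h)
        · simp only [if_neg h', if_neg h]
          have := (hw j 10).nb (a - 5) (by omega)
          rwa [show a - 5 + 2 = a + 2 - 5 by omega] at this
  -- two points with odd distances from `x`
  have key : ∀ i j : Fin 3, ∀ a b : Fin 3, (i, a) ≠ (j, b) →
      w i (2 * a.val + 1) ≠ w j (2 * b.val + 1) ∧ ¬ Ad (w i (2 * a.val + 1)) (w j (2 * b.val + 1)) := by
    intro i j a b hne
    by_cases hij : i = j
    · subst hij
      have hab : a.val ≠ b.val := fun h => hne (by rw [Fin.ext h])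
      rcases lt_or_gt_of_ne hab with h | h
      · exact ⟨(hw i 10).inj hi hg (by omega) (by omega) (by omega),
          (hw i 10).ind hs hi hg (by omega) (by omega) (by omega)⟩
      · exact ⟨((hw i 10).inj hi hg (by omega) (by omega) (by omega)).symm,
          fun h' => (hw i 10).ind hs hi hg (i := 2 * b.val + 1) (j := 2 * a.val + 1) (by omega)
            (by omega) (by omega) (hs _ _ h')⟩
    · have h1 := (hz i j hij).inj hi hg (i := 5 - (2 * a.val + 1)) (j := 5 + (2 * b.val + 1))
        (by omega) (by omega) (by omega)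
      have h3 := (hz i j hij).ind hs hi hg (i := 5 - (2 * a.val + 1)) (j := 5 + (2 * b.val + 1))
        (by omega) (by omega) (by omega)
      simp only [if_pos (show 5 - (2 * a.val + 1) ≤ 5 by omega),
        if_neg (show ¬ 5 + (2 * b.val + 1) ≤ 5 by omega)] at h1 h3
      rw [show 5 - (5 - (2 * a.val + 1)) = 2 * a.val + 1 by omega,
        show 5 + (2 * b.val + 1) - 5 = 2 * b.val + 1 by omega] at h1 h3
      exact ⟨h1, h3⟩
  refine ⟨(univ : Finset (Fin 3 × Fin 3)).image (fun p => w p.1 (2 * p.2.val + 1)), ?_, ?_, ?_⟩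
  · intro y hy
    obtain ⟨p, _, rfl⟩ := mem_image.1 hy
    exact hwU _ _
  · intro y hy z hz' hyz
    obtain ⟨p, _, rfl⟩ := mem_image.1 hy
    obtain ⟨q, _, rfl⟩ := mem_image.1 hz'
    by_cases hpq : p = q
    · rw [hpq] at hyz
      exact hi _ hyz
    · exact (key p.1 q.1 p.2 q.2 hpq).2 hyz
  · rw [card_image_of_injective]
    · simp
    · intro p q hpq
      by_contra hne
      exact (key p.1 q.1 p.2 q.2 hne).1 hpq

/-- a set with at least 19 elements contains nine pairwise not adjacent vertices -/
theorem nine (hs : ∀ a b, Ad a b → Ad b a) (hi : ∀ a, ¬ Ad a a) (hg : Girth Ad 12) :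
    ∀ (n : ℕ) (U : Finset V), U.card = n → ∃ I ⊆ U, Ind Ad I ∧ min 9 ((n - 1) / 2) ≤ I.card := by
  classical
  intro n
  induction n using Nat.strong_induction_on with
  | _ n ih =>
    intro U hU
    rcases U.eq_empty_or_nonempty with hE | ⟨x, hx⟩
    · refine ⟨∅, empty_subset _, fun x hx => absurd hx (notMem_empty _), ?_⟩
      rw [hE, card_empty] at hU
      subst hU
      simp
    by_cases hl : ∃ v ∈ U, (U.filter (Ad v)).card ≤ 1
    · obtain ⟨v, hv, h1⟩ := hl
      obtain ⟨U', hsub, hc1, hc2, hI⟩ := leaf hs hi hv h1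
      obtain ⟨I, hI1, hI2, hI3⟩ := ih U'.card (by omega) U' rfl
      obtain ⟨h3, h4, h5⟩ := hI I hI1 hI2
      exact ⟨_, h3, h4, by omega⟩
    push Not at hl
    have h2 := two_of (U := U) (Ad := Ad) (fun v hv => by have := hl v hv; omega)
    by_cases h3 : ∃ v ∈ U, 3 ≤ (U.filter (Ad v)).card
    · obtain ⟨v, hv, h3⟩ := h3
      obtain ⟨a, ha, b, hb, c, hc, hab, hac, hbc⟩ := Finset.two_lt_card.1 h3
      rw [mem_filter] at ha hb hc
      obtain ⟨I, hI1, hI2, hI3⟩ := legs hs hi hg h2 hv ![a, b, c] (by
        intro i j hij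
        fin_cases i <;> fin_cases j <;> simp_all) (by
        intro i
        fin_cases i
        · exact ha.1
        · exact hb.1
        · exact hc.1) (by
        intro i
        fin_cases i
        · exact ha.2
        · exact hb.2
        · exact hc.2)
      exact ⟨I, hI1, hI2, by omega⟩
    · push Not at h3
      obtain ⟨a, ha, hxa, _⟩ := h2 x hx x
      obtain ⟨w, hw, hwU, hw0, hw1⟩ := exists_walk h2 hx ha hxa
      obtain ⟨y, hy, hxy, hya⟩ := h2 x hx a
      set I0 : Finset V := (range 6).image (fun i => w (2 * i)) with hI0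
      set U' : Finset V := U \ (insert y ((range 12).image w)) with hU'
      have hI0c : I0.card = 6 := by
        rw [hI0, card_image_of_injOn, card_range]
        intro i hi' j hj hij
        simp only [coe_range, Set.mem_Iio] at hi' hj
        rcases lt_trichotomy i j with h | h | h
        · exact absurd hij ((hw 12).inj hi hg (by omega) (by omega) (by omega))
        · exact h
        · exact absurd hij.symm ((hw 12).inj hi hg (by omega) (by omega) (by omega))
      have hU'c : U.card ≤ U'.card + 13 := by
        have h4 : (insert y ((range 12).image w)).card ≤ 13 := by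
          refine (card_insert_le _ _).trans ?_
          have : ((range 12).image w).card ≤ 12 := by
            simpa using card_image_le (s := range 12) (f := w)
          omega
        have h5 := le_card_sdiff (insert y ((range 12).image w)) U
        rw [← hU'] at h5
        omega
      obtain ⟨U2, hU2, hU2c⟩ := exists_subset_card_eq (show min U'.card 6 ≤ U'.card by omega)
      obtain ⟨I1, hI1, hI1i, hI1c⟩ := small hs hi hg (min U'.card 6) (by omega) U2 hU2c
      -- neighbours of the first set
      have hnb : ∀ i, i < 6 → ∀ z ∈ U, Ad (w (2 * i)) z → z ∈ insert y ((range 12).image w) := by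
        intro i hi' z hz hwz
        have hle := h3 (w (2 * i)) (hwU _)
        have hnext : w (2 * i + 1) ∈ U.filter (Ad (w (2 * i))) :=
          mem_filter.2 ⟨hwU _, (hw 12).adj _ (by omega)⟩
        by_contra hcon
        rw [mem_insert, mem_image] at hcon
        push Not at hcon
        have hz1 : z ≠ w (2 * i + 1) := fun h => hcon.2 (2 * i + 1)
          (mem_range.2 (by omega)) h.symm
        have hzm : z ∈ U.filter (Ad (w (2 * i))) := mem_filter.2 ⟨hz, hwz⟩
        -- the other neighbour
        have hprev : ∃ p ∈ U.filter (Ad (w (2 * i))), p ≠ w (2 * i + 1) ∧ z ≠ p := by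
          rcases Nat.eq_zero_or_pos i with h0 | h0
          · subst h0
            refine ⟨y, mem_filter.2 ⟨hy, ?_⟩, ?_, hcon.1⟩
            · rw [Nat.mul_zero, hw0]
              exact hxy
            · rw [Nat.mul_zero, Nat.zero_add, hw1]
              exact hya
          · refine ⟨w (2 * i - 1), mem_filter.2 ⟨hwU _, ?_⟩, ?_, ?_⟩
            · have := (hw 12).adj (2 * i - 1) (by omega)
              rw [show 2 * i - 1 + 1 = 2 * i by omega] at this
              exact hs _ _ this
            · exact (hw 12).inj hi hg (by omega) (by omega) (by omega)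
            · exact fun h => hcon.2 (2 * i - 1) (mem_range.2 (by omega)) h.symm
        obtain ⟨p, hp1, hp2, hp3⟩ := hprev
        have : ({p, w (2 * i + 1), z} : Finset V) ⊆ U.filter (Ad (w (2 * i))) := by
          intro q hq
          rw [mem_insert, mem_insert, mem_singleton] at hq
          rcases hq with rfl | rfl | rfl
          · exact hp1
          · exact hnext
          · exact hzm
        have h4 := card_le_card this
        rw [card_eq_three.2 ⟨p, w (2 * i + 1), z, hp2, Ne.symm hp3, Ne.symm hz1, rfl⟩] at h4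
        omega
      have hI0U : I0 ⊆ U := by
        intro z hz
        obtain ⟨i, _, rfl⟩ := mem_image.1 hz
        exact hwU _
      have hI1U' : I1 ⊆ U' := hI1.trans hU2
      have hdisj : Disjoint I0 I1 := by
        rw [disjoint_left]
        intro z hz hz1
        have h4 := hI1U' hz1
        rw [hU', mem_sdiff] at h4
        obtain ⟨i, hi', rfl⟩ := mem_image.1 hz
        rw [mem_range] at hi'
        exact h4.2 (mem_insert_of_mem (mem_image.2 ⟨2 * i, mem_range.2 (by omega), rfl⟩))
      refine ⟨I0 ∪ I1, union_subset hI0U (hI1U'.trans sdiff_subset), ?_, ?_⟩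
      · have hcross : ∀ p ∈ I0, ∀ q ∈ I1, ¬ Ad p q := by
          intro p hp q hq hpq
          obtain ⟨i, hi', rfl⟩ := mem_image.1 hp
          rw [mem_range] at hi'
          have h4 := hI1U' hq
          rw [hU', mem_sdiff] at h4
          exact h4.2 (hnb i hi' q h4.1 hpq)
        have h00 : ∀ i j, i < j → j < 6 → ¬ Ad (w (2 * i)) (w (2 * j)) := by
          intro i j hij hj
          exact (hw 12).ind hs hi hg (by omega) (by omega) (by omega)
        intro p hp q hq hpq
        rcases mem_union.1 hp with hp | hp <;> rcases mem_union.1 hq with hq | hq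
        · obtain ⟨i, hi', rfl⟩ := mem_image.1 hp
          obtain ⟨j, hj', rfl⟩ := mem_image.1 hq
          rw [mem_range] at hi' hj'
          rcases lt_trichotomy i j with h | h | h
          · exact h00 i j h hj' hpq
          · rw [h] at hpq
            exact hi _ hpq
          · exact h00 j i h hi' (hs _ _ hpq)
        · exact hcross p hp q hq hpq
        · exact hcross q hq p hp (hs _ _ hpq)
        · exact hI1i p hp q hq hpq
      · rw [card_union_of_disjoint hdisj, hI0c]
        omega

end

end Pool.Agent.Q165.TI
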