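import Pool.Agent.Q165.TI.TD
import Pool.Agent.Q165.TI.Alpha
import Pool.Agent.Y335.FL.Main
import Pool.Agent.Y335.FL.Ahl
import Pool.Agent.Y335.FL.Ex17
import Pool.Agent.Y335.FL.Iso
import Pool.Agent.Y335.FL.Order
import Pool.Agent.Y335.FL.Tw

/-!
# Nowhere-zero 5-flows and tree decompositions into sets with small independence number or small
clique cover number
-/

set_option autoImplicit false
set_option linter.unusedSectionVars false

namespace Pool.Agent.Q165.TI

open Finset Pool.Agent.TH676.Z Pool.Agent.Y335.FL Pool.Agent.Y358.IN Pool.Agent.Q165.SG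

section

variable {V E : Type} [Fintype V] [DecidableEq V] [Fintype E] [DecidableEq E]

/-- independence number at most eight, or covered by cliques with weights at most 18 -/
def Good (src dst : E → V) (X : Finset V) : Prop :=
  (∃ (m : ℕ) (K : Fin m → Finset V),
    (∀ i, ∀ x ∈ K i, ∀ y ∈ K i, x ≠ y → Adj src dst x y) ∧ (∀ x ∈ X, ∃ i, x ∈ K i) ∧
    ∑ i, min (K i).card 2 ≤ 18) ∨
  ∀ I ⊆ X, Ind (Adj src dst) I → I.card ≤ 8

theorem adj_ctr {src dst : E → V} {u v a b : V} (h : Adj src dst a b)
    (hne : ctr u v a ≠ ctr u v b) : Adj (ctr u v ∘ src) (ctr u v ∘ dst) (ctr u v a) (ctr u v b) :=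
  (adj_ctr_iff hne).2 ⟨a, b, rfl, rfl, h⟩

theorem Good.contract {src dst : E → V} {X : Finset V} (h : Good src dst X) (u v : V) :
    Good (ctr u v ∘ src) (ctr u v ∘ dst) (X.image (ctr u v)) := by
  classical
  rcases h with ⟨m, K, h1, h2, h3⟩ | h
  · left
    refine ⟨m, fun i => (K i).image (ctr u v), ?_, ?_, ?_⟩
    · intro i x hx y hy hxy
      obtain ⟨a, ha, rfl⟩ := mem_image.1 hx
      obtain ⟨b, hb, rfl⟩ := mem_image.1 hy
      exact adj_ctr (h1 i a ha b hb (fun h => hxy (by rw [h]))) hxy
    · intro x hx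
      obtain ⟨a, ha, rfl⟩ := mem_image.1 hx
      obtain ⟨i, hi⟩ := h2 a ha
      exact ⟨i, mem_image_of_mem _ hi⟩
    · refine (sum_le_sum fun i _ => ?_).trans h3
      exact min_le_min_right _ card_image_le
  · right
    intro I hI hind
    have hex : ∀ x ∈ I, ∃ a ∈ X, ctr u v a = x := fun x hx => mem_image.1 (hI hx)
    choose! g hg1 hg2 using hex
    have hinj : Set.InjOn g (I : Set V) := by
      intro x hx y hy hxy
      rw [← hg2 x hx, ← hg2 y hy, hxy]
    have hc := h (I.image g) (by
      intro x hx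
      obtain ⟨y, hy, rfl⟩ := mem_image.1 hx
      exact hg1 y hy) (by
      intro x hx y hy hxy
      obtain ⟨x', hx', rfl⟩ := mem_image.1 hx
      obtain ⟨y', hy', rfl⟩ := mem_image.1 hy
      have hne : ctr u v (g x') ≠ ctr u v (g y') := by
        rw [hg2 x' hx', hg2 y' hy']
        rintro rfl
        exact hxy.1 rfl
      have := adj_ctr hxy hne
      rw [hg2 x' hx', hg2 y' hy'] at this
      exact hind x' hx' y' hy' this)
    rwa [card_image_of_injOn hinj] at hc

theorem ccT : CC (V := V) (E := E) (fun src dst => TDP src dst (Good src dst)) := by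
  intro src dst e h hne
  exact h.contract e hne (fun X hX => hX.contract _ _)

theorem Good.card_le {src dst : E → V} (hG : Girth (Adj src dst) 12) {X : Finset V}
    (h : Good src dst X) : X.card ≤ 18 := by
  classical
  rcases h with ⟨m, K, h1, h2, h3⟩ | h
  · have hK : ∀ i, (K i).card ≤ min (K i).card 2 := by
      intro i
      rw [le_min_iff]
      refine ⟨le_rfl, ?_⟩
      by_contra hcon
      push Not at hcon
      obtain ⟨a, ha, b, hb, c, hc, hab, hac, hbc⟩ := Finset.two_lt_card.1 hcon
      refine hG 0 (by norm_num) ![a, b, c] ?_ ?_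
      · intro i j hij
        fin_cases i <;> fin_cases j <;> simp_all
      · intro j
        fin_cases j
        · exact h1 i a ha b hb hab
        · exact h1 i b hb c hc hbc
        · exact h1 i c hc a ha hac.symm
    calc X.card ≤ (univ.biUnion K).card := by
          refine card_le_card fun x hx => ?_
          obtain ⟨i, hi⟩ := h2 x hx
          exact mem_biUnion.2 ⟨i, mem_univ _, hi⟩
      _ ≤ ∑ i, (K i).card := card_biUnion_le
      _ ≤ ∑ i, min (K i).card 2 := sum_le_sum fun i _ => hK i
      _ ≤ 18 := h3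
  · by_contra hcon
    push Not at hcon
    obtain ⟨I, hI1, hI2, hI3⟩ := nine (Ad := Adj src dst) (fun a b h => adj_symm h)
      (fun a h => h.1 rfl) hG X.card X rfl
    have := h I hI1 hI2
    omega

/-- **5-flows**: tree decompositions into sets with small independence number or small clique
cover number -/
theorem flowT (src dst : E → V) (h : TDP src dst (Good src dst)) (hb : Br src dst ∅ ∅) :
    FlowOn src dst ∅ ∅ := by
  by_contra hn
  obtain ⟨s, d, hs, hM⟩ := exists_minC ccT src dst h hb hn
  have hG := girthC contract_all hM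
  have hT := threeC contract_all hM
  have hTD : Pool.Agent.TH497.TW.HasTD 18 s d := (hs.mono (fun X hX => hX.card_le hG)).hasTD
  obtain ⟨In, hB⟩ := bags hTD
  have hno := tw (iso (ex17 ahl)) moore V (Adj s d) In
    (fun a b h => adj_symm h) (fun a h => h.1 rfl) hG hT hB
  refine hM.nf (flow_of_loops fun e => ?_)
  by_contra he
  exact hno (s e) (d e) ⟨he, e, Or.inl ⟨rfl, rfl⟩⟩

end

/-- regions of a graph with bags of at most `w` points, and further vertices in `S` -/
theorem good_region {V E W : Type} [Fintype V] [DecidableEq V] [Fintype E] [DecidableEq E]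
    [Fintype W] [DecidableEq W] {src dst : E → V} {R : V → Finset W} (S : Finset V)
    (hadj : ∀ u v, u ∉ S → v ∉ S → u ≠ v → (∃ p, p ∈ R u ∧ p ∈ R v) → Adj src dst u v)
    (C : Finset W) (hc : 2 * C.card + S.card ≤ 18) :
    Good src dst (univ.filter (fun u => u ∈ S ∨ ∃ p ∈ C, p ∈ R u)) := by
  classical
  left
  obtain ⟨e1⟩ : Nonempty (Fin C.card ≃ C) := ⟨C.equivFin.symm⟩
  obtain ⟨e2⟩ : Nonempty (Fin S.card ≃ S) := ⟨S.equivFin.symm⟩
  refine ⟨C.card + S.card, Fin.append
    (fun i => univ.filter (fun u => u ∉ S ∧ (e1 i : W) ∈ R u)) (fun i => {(e2 i : V)}), ?_, ?_, ?_⟩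
  · intro i
    refine Fin.addCases (fun i => ?_) (fun i => ?_) i
    · intro x hx y hy hxy
      rw [Fin.append_left, mem_filter] at hx hy
      exact hadj x y hx.2.1 hy.2.1 hxy ⟨_, hx.2.2, hy.2.2⟩
    · intro x hx y hy hxy
      rw [Fin.append_right, mem_singleton] at hx hy
      exact absurd (hx.trans hy.symm) hxy
  · intro x hx
    rw [mem_filter] at hx
    by_cases hxS : x ∈ S
    · refine ⟨Fin.natAdd _ (e2.symm ⟨x, hxS⟩), ?_⟩
      rw [Fin.append_right, mem_singleton, Equiv.apply_symm_apply]
    · obtain ⟨p, hpC, hpx⟩ := hx.2.resolve_left hxS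
      refine ⟨Fin.castAdd _ (e1.symm ⟨p, hpC⟩), ?_⟩
      rw [Fin.append_left, mem_filter, Equiv.apply_symm_apply]
      exact ⟨mem_univ _, hxS, hpx⟩
  · rw [Fin.sum_univ_add]
    have h1 : ∑ i : Fin C.card, min (Fin.append
        (fun i => univ.filter (fun u => u ∉ S ∧ (e1 i : W) ∈ R u)) (fun i => {(e2 i : V)})
        (Fin.castAdd S.card i)).card 2 ≤ ∑ _i : Fin C.card, 2 :=
      sum_le_sum fun i _ => min_le_right _ _
    have h2 : ∑ i : Fin S.card, min (Fin.append
        (fun i => univ.filter (fun u => u ∉ S ∧ (e1 i : W) ∈ R u)) (fun i => {(e2 i : V)})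
        (Fin.natAdd C.card i)).card 2 ≤ ∑ _i : Fin S.card, 1 := by
      refine sum_le_sum fun i _ => ?_
      rw [Fin.append_right, card_singleton]
      norm_num
    rw [sum_const, card_univ, Fintype.card_fin, smul_eq_mul] at h1 h2
    omega

end Pool.Agent.Q165.TI
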